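import Mathlib

/-!
# Large corners on which countably many operators are bounded

Let `a i` be bounded operators on a Hilbert space and `Ω` a vector with `∑ ‖a i Ω‖² ≤ s`. There is a
projection `e` in the von Neumann algebra generated by the `a i` with `‖Ω - e Ω‖² ≤ 2 s` and
`‖a i e‖² ≤ 2` for all `i`. No trace is needed: `e` is a spectral projection of the compression `R` of the
projection onto the graph of `(a i)`.
-/

set_option autoImplicit false

open scoped InnerProductSpace ENNReal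

namespace Pool.Agent.L0h24.AU

variable {ι : Type*} {H : Type*} [NormedAddCommGroup H] [InnerProductSpace ℂ H]

/-- the Hilbert sum -/
abbrev KK (ι H : Type*) [NormedAddCommGroup H] [InnerProductSpace ℂ H] : Type _ :=
  lp (fun _ : Option ι => H) 2

/-- the graph -/
noncomputable def Gr (a : ι → H →L[ℂ] H) : Submodule ℂ (KK ι H) where
  carrier := {η | ∀ i, η (some i) = a i (η none)}
  zero_mem' := fun i => by simp
  add_mem' := fun {x y} hx hy i => by
    rw [lp.coeFn_add, Pi.add_apply, Pi.add_apply, map_add, hx i, hy i]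
  smul_mem' := fun c x hx i => by
    rw [lp.coeFn_smul, Pi.smul_apply, Pi.smul_apply, map_smul, hx i]

lemma mem_Gr (a : ι → H →L[ℂ] H) (η : KK ι H) : η ∈ Gr a ↔ ∀ i, η (some i) = a i (η none) := Iff.rfl

lemma isClosed_Gr (a : ι → H →L[ℂ] H) : IsClosed (Gr a : Set (KK ι H)) := by
  have h : (Gr a : Set (KK ι H)) = ⋂ i, {η : KK ι H | η (some i) = a i (η none)} := by
    ext η
    simp only [SetLike.mem_coe, mem_Gr, Set.mem_iInter]
    rfl
  rw [h]
  refine isClosed_iInter fun i => isClosed_eq ?_ ?_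
  · exact (lp.evalCLM ℂ (fun _ : Option ι => H) 2 (some i)).continuous
  · exact (a i).continuous.comp (lp.evalCLM ℂ (fun _ : Option ι => H) 2 none).continuous

section sg

open Classical in
/-- the inclusion in the first coordinate -/
noncomputable def sg (ι : Type*) (H : Type*) [NormedAddCommGroup H] [InnerProductSpace ℂ H] :
    H →L[ℂ] KK ι H :=
  lp.singleContinuousLinearMap ℂ (fun _ : Option ι => H) 2 none

open Classical in
lemma inner_sg (f : KK ι H) (x : H) : ⟪f, sg ι H x⟫_ℂ = ⟪f none, x⟫_ℂ := by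
  unfold sg
  rw [lp.singleContinuousLinearMap_apply]
  exact lp.inner_single_right (G := fun _ : Option ι => H) none x f

open Classical in
lemma sg_inner (f : KK ι H) (x : H) : ⟪sg ι H x, f⟫_ℂ = ⟪x, f none⟫_ℂ := by
  unfold sg
  rw [lp.singleContinuousLinearMap_apply]
  exact lp.inner_single_left (G := fun _ : Option ι => H) none x f

open Classical in
lemma sg_none (x : H) : sg ι H x none = x := by
  unfold sg
  rw [lp.singleContinuousLinearMap_apply]
  exact lp.single_apply_self (E := fun _ : Option ι => H) 2 none x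

open Classical in
lemma sg_some (x : H) (i : ι) : sg ι H x (some i) = 0 := by
  unfold sg
  rw [lp.singleContinuousLinearMap_apply]
  exact lp.single_apply_ne (E := fun _ : Option ι => H) 2 none x (by simp)

open Classical in
lemma norm_sg (x : H) : ‖sg ι H x‖ = ‖x‖ := by
  unfold sg
  rw [lp.singleContinuousLinearMap_apply]
  exact lp.norm_single (E := fun _ : Option ι => H) (by norm_num) none x

end sg

variable [CompleteSpace H]

instance instCompleteGr (a : ι → H →L[ℂ] H) : CompleteSpace (Gr a) :=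
  (isClosed_Gr a).completeSpace_coe

/-- the compression of the projection onto the graph -/
noncomputable def RR (a : ι → H →L[ℂ] H) : H →L[ℂ] H :=
  (lp.evalCLM ℂ (fun _ : Option ι => H) 2 none) ∘L (Gr a).starProjection ∘L sg ι H

lemma RR_apply (a : ι → H →L[ℂ] H) (x : H) : RR a x = (Gr a).starProjection (sg ι H x) none := rfl

lemma inner_RR (a : ι → H →L[ℂ] H) (x y : H) :
    ⟪RR a x, y⟫_ℂ = ⟪(Gr a).starProjection (sg ι H x), sg ι H y⟫_ℂ := by
  rw [RR_apply, inner_sg]

lemma RR_symm (a : ι → H →L[ℂ] H) (x y : H) : ⟪RR a x, y⟫_ℂ = ⟪x, RR a y⟫_ℂ := by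
  rw [inner_RR, Submodule.inner_starProjection_left_eq_right, sg_inner, RR_apply]

lemma RR_isSelfAdjoint (a : ι → H →L[ℂ] H) : IsSelfAdjoint (RR a) := by
  rw [ContinuousLinearMap.isSelfAdjoint_iff_isSymmetric]
  exact fun x y => RR_symm a x y

lemma re_RR (a : ι → H →L[ℂ] H) (x : H) :
    (⟪RR a x, x⟫_ℂ).re = ‖(Gr a).starProjection (sg ι H x)‖ ^ 2 := by
  rw [inner_RR]
  exact Submodule.re_inner_starProjection_eq_normSq (K := Gr a) (sg ι H x)

lemma re_RR_le (a : ι → H →L[ℂ] H) (x : H) : (⟪RR a x, x⟫_ℂ).re ≤ ‖x‖ ^ 2 := by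
  rw [re_RR]
  have h := Submodule.norm_starProjection_apply_le (Gr a) (sg ι H x)
  rw [norm_sg] at h
  gcongr

lemma re_RR_nonneg (a : ι → H →L[ℂ] H) (x : H) : 0 ≤ (⟪RR a x, x⟫_ℂ).re := by
  rw [re_RR]
  positivity

lemma a_RR (a : ι → H →L[ℂ] H) (i : ι) (x : H) : ‖a i (RR a x)‖ ^ 2 ≤ (⟪RR a x, x⟫_ℂ).re := by
  have h1 : a i (RR a x) = (Gr a).starProjection (sg ι H x) (some i) :=
    ((mem_Gr a _).1 (Submodule.starProjection_apply_mem (Gr a) (sg ι H x)) i).symm
  rw [h1, re_RR]
  have h2 := lp.norm_apply_le_norm (p := 2) (E := fun _ : Option ι => H) (by norm_num)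
    ((Gr a).starProjection (sg ι H x)) (some i)
  gcongr

lemma le_RR (a : ι → H →L[ℂ] H) (x : H) (s : ℝ)
    (hs : ∀ F : Finset ι, ∑ i ∈ F, ‖a i x‖ ^ 2 ≤ s) : ‖x‖ ^ 2 - s ≤ (⟪RR a x, x⟫_ℂ).re := by
  classical
  have hs0 : 0 ≤ s := by simpa using hs ∅
  set v : Option ι → H := fun o => o.elim 0 (fun i => a i x) with hv
  have hsum : ∀ F : Finset (Option ι), ∑ o ∈ F, ‖v o‖ ^ (2 : ℝ≥0∞).toReal ≤ s := by
    intro F
    have h1 : ∑ o ∈ F, ‖v o‖ ^ (2 : ℝ≥0∞).toReal ≤ ∑ i ∈ F.eraseNone, ‖a i x‖ ^ 2 := by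
      have h2 : ∀ o, ‖v o‖ ^ (2 : ℝ≥0∞).toReal = ‖v o‖ ^ 2 := by
        intro o
        rw [ENNReal.toReal_ofNat]
        exact Real.rpow_natCast _ 2
      simp_rw [h2]
      calc ∑ o ∈ F, ‖v o‖ ^ 2 ≤ ∑ o ∈ insert none (F.eraseNone.map Function.Embedding.some), ‖v o‖ ^ 2 := by
            refine Finset.sum_le_sum_of_subset_of_nonneg ?_ fun _ _ _ => by positivity
            intro o ho
            rcases o with _ | i
            · exact Finset.mem_insert_self _ _
            · refine Finset.mem_insert_of_mem ?_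
              rw [Finset.mem_map]
              exact ⟨i, by simpa using ho, rfl⟩
        _ = ∑ i ∈ F.eraseNone, ‖a i x‖ ^ 2 := by
            rw [Finset.sum_insert (by simp), Finset.sum_map]
            simp [hv]
    exact h1.trans (hs _)
  have hmem : Memℓp v 2 := memℓp_gen' (C := s) hsum
  set w : KK ι H := ⟨v, hmem⟩ with hw
  have hwn : ‖w‖ ^ 2 ≤ s := by
    have h1 : ‖w‖ ≤ Real.sqrt s := by
      refine lp.norm_le_of_forall_sum_le (by norm_num) (Real.sqrt_nonneg _) fun F => ?_
      refine (hsum F).trans ?_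
      rw [ENNReal.toReal_ofNat]
      have : Real.sqrt s ^ (2 : ℝ) = s := by
        rw [Real.rpow_two, Real.sq_sqrt hs0]
      rw [this]
    calc ‖w‖ ^ 2 ≤ Real.sqrt s ^ 2 := by gcongr
      _ = s := Real.sq_sqrt hs0
  have hg : sg ι H x + w ∈ Gr a := by
    rw [mem_Gr]
    intro i
    rw [lp.coeFn_add, Pi.add_apply, Pi.add_apply, sg_none, sg_some, hw]
    simp [hv]
  have h1 := Submodule.norm_sq_eq_add_norm_sq_starProjection (𝕜 := ℂ) (sg ι H x) (Gr a)
  have h2 : ‖(Gr a)ᗮ.starProjection (sg ι H x)‖ ≤ ‖w‖ := by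
    have h3 : (Gr a)ᗮ.starProjection (sg ι H x) = - (Gr a)ᗮ.starProjection w := by
      have h4 : (Gr a)ᗮ.starProjection (sg ι H x + w) = 0 :=
        Submodule.starProjection_orthogonal_apply_eq_zero hg
      rw [map_add] at h4
      exact eq_neg_of_add_eq_zero_left h4
    rw [h3, norm_neg]
    exact Submodule.norm_starProjection_apply_le _ _
  rw [re_RR]
  rw [norm_sg] at h1
  nlinarith [norm_nonneg w, norm_nonneg ((Gr a)ᗮ.starProjection (sg ι H x))]


/-! ### Commutation -/

/-- a bounded operator in each coordinate -/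
noncomputable def dg (b : H →L[ℂ] H) (η : KK ι H) : KK ι H :=
  ⟨fun o => b (η o), by
    have h1 := (lp.memℓp η).summable (by norm_num : 0 < (2 : ℝ≥0∞).toReal)
    refine memℓp_gen ?_
    refine Summable.of_nonneg_of_le (fun o => by positivity) (fun o => ?_)
      (h1.mul_left (‖b‖ ^ (2 : ℝ≥0∞).toReal))
    rw [← Real.mul_rpow (norm_nonneg _) (norm_nonneg _)]
    exact Real.rpow_le_rpow (norm_nonneg _) (b.le_opNorm _) (by norm_num)⟩

lemma dg_apply (b : H →L[ℂ] H) (η : KK ι H) (o : Option ι) : dg b η o = b (η o) := rfl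

lemma dg_inner (b : H →L[ℂ] H) (η w : KK ι H) :
    ⟪dg b η, w⟫_ℂ = ⟪η, dg (star b) w⟫_ℂ := by
  rw [lp.inner_eq_tsum, lp.inner_eq_tsum]
  refine tsum_congr fun o => ?_
  rw [dg_apply, dg_apply, ContinuousLinearMap.star_eq_adjoint, ContinuousLinearMap.adjoint_inner_right]

lemma dg_mem (a : ι → H →L[ℂ] H) (b : H →L[ℂ] H) (hb : ∀ i, Commute b (a i)) (η : KK ι H)
    (h : η ∈ Gr a) : dg b η ∈ Gr a := by
  rw [mem_Gr] at h ⊢
  intro i
  rw [dg_apply, dg_apply, h i]
  exact congrArg (fun f : H →L[ℂ] H => f (η none)) (hb i).eq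

lemma dg_sg (b : H →L[ℂ] H) (x : H) : dg b (sg ι H x) = sg ι H (b x) := by
  refine lp.ext (funext fun o => ?_)
  rw [dg_apply]
  rcases o with _ | i
  · rw [sg_none, sg_none]
  · rw [sg_some, sg_some, map_zero]

lemma dg_sub (b : H →L[ℂ] H) (η w : KK ι H) : dg b (η - w) = dg b η - dg b w := by
  refine lp.ext (funext fun o => ?_)
  rw [lp.coeFn_sub, Pi.sub_apply, dg_apply, dg_apply, dg_apply, lp.coeFn_sub, Pi.sub_apply, map_sub]

lemma RR_comm (a : ι → H →L[ℂ] H) (b : H →L[ℂ] H) (hb : ∀ i, Commute b (a i))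
    (hb' : ∀ i, Commute b (star (a i))) : Commute b (RR a) := by
  have hb2 : ∀ i, Commute (star b) (a i) := by
    intro i
    have h := (hb' i).star_star
    rwa [star_star] at h
  have key : ∀ x, RR a (b x) = b (RR a x) := by
    intro x
    have h1 : (Gr a).starProjection (sg ι H (b x)) = dg b ((Gr a).starProjection (sg ι H x)) := by
      refine Submodule.eq_starProjection_of_mem_of_inner_eq_zero (K := Gr a)
        (dg_mem a b hb _ (Submodule.starProjection_apply_mem _ _)) fun w hw => ?_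
      rw [← dg_sg, ← dg_sub, dg_inner]
      exact Submodule.starProjection_inner_eq_zero (K := Gr a) _ _ (dg_mem a (star b) hb2 w hw)
    rw [RR_apply, h1, dg_apply, RR_apply]
  ext x
  exact (key x).symm

/-- an operator commutes with the projection onto an invariant subspace, if the adjoint leaves it
invariant as well -/
lemma comm_proj (E : Submodule ℂ H) [E.HasOrthogonalProjection] (b : H →L[ℂ] H)
    (h1 : ∀ x ∈ E, b x ∈ E) (h2 : ∀ x ∈ E, star b x ∈ E) : Commute b E.starProjection := by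
  have key : ∀ x, E.starProjection (b x) = b (E.starProjection x) := by
    intro x
    refine Submodule.eq_starProjection_of_mem_of_inner_eq_zero (K := E)
      (h1 _ (Submodule.starProjection_apply_mem _ _)) fun w hw => ?_
    rw [← map_sub, ← ContinuousLinearMap.adjoint_inner_right, ← ContinuousLinearMap.star_eq_adjoint]
    exact Submodule.starProjection_inner_eq_zero (K := E) _ _ (h2 w hw)
  ext x
  exact (key x).symm

/-! ### The spectral projection -/

section spec

variable (R : H →L[ℂ] H)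

/-- the positive part of `R - 1/2` -/
noncomputable def Xp : H →L[ℂ] H := cfc (fun t : ℝ => max (t - 1 / 2) 0) R

/-- the negative part of `R - 1/2` -/
noncomputable def Xm : H →L[ℂ] H := cfc (fun t : ℝ => max (1 / 2 - t) 0) R

/-- `1 / max (R, 1/2)` -/
noncomputable def Xh : H →L[ℂ] H := cfc (fun t : ℝ => 1 / max t (1 / 2)) R

lemma cont_h : Continuous (fun t : ℝ => 1 / max t (1 / 2 : ℝ)) := by
  refine continuous_const.div (continuous_id.max continuous_const) fun t => ?_
  have : (0 : ℝ) < max t (1 / 2) := lt_of_lt_of_le (by norm_num) (le_max_right _ _)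
  exact this.ne'

variable {R}

lemma Xp_sub (hR : IsSelfAdjoint R) : Xp R - Xm R = R - algebraMap ℝ (H →L[ℂ] H) (1 / 2) := by
  unfold Xp Xm
  rw [← cfc_sub (fun t : ℝ => max (t - 1 / 2) 0) (fun t : ℝ => max (1 / 2 - t) 0) R
    (by fun_prop) (by fun_prop)]
  have h2 : R - algebraMap ℝ (H →L[ℂ] H) (1 / 2) = cfc (fun t : ℝ => t - 1 / 2) R := by
    rw [cfc_sub (fun t : ℝ => t) (fun _ : ℝ => (1 / 2 : ℝ)) R (by fun_prop) (by fun_prop),
      cfc_id' ℝ R, cfc_const (1 / 2 : ℝ) R]
  rw [h2]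
  refine cfc_congr fun t _ => ?_
  show max (t - 1 / 2) 0 - max (1 / 2 - t) 0 = t - 1 / 2
  rcases le_total t (1 / 2) with h | h
  · rw [max_eq_right (by linarith), max_eq_left (by linarith)]; ring
  · rw [max_eq_left (by linarith), max_eq_right (by linarith)]; ring

lemma Xm_mul_Xp (hR : IsSelfAdjoint R) : Xm R * Xp R = 0 := by
  unfold Xp Xm
  rw [← cfc_mul (fun t : ℝ => max (1 / 2 - t) 0) (fun t : ℝ => max (t - 1 / 2) 0) R
    (by fun_prop) (by fun_prop)]
  rw [← cfc_zero ℝ R]
  refine cfc_congr fun t _ => ?_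
  show max (1 / 2 - t) 0 * max (t - 1 / 2) 0 = 0
  rcases le_total t (1 / 2) with h | h
  · rw [max_eq_right (a := t - 1 / 2) (by linarith), mul_zero]
  · rw [max_eq_right (a := 1 / 2 - t) (by linarith), zero_mul]

lemma R_Xp_h (hR : IsSelfAdjoint R) : R * (Xp R * Xh R) = Xp R := by
  unfold Xp Xh
  rw [← cfc_mul (fun t : ℝ => max (t - 1 / 2) 0) (fun t : ℝ => 1 / max t (1 / 2)) R
    (by fun_prop) cont_h.continuousOn]
  nth_rewrite 1 [← cfc_id' ℝ R]
  rw [← cfc_mul (fun t : ℝ => t) (fun t : ℝ => max (t - 1 / 2) 0 * (1 / max t (1 / 2))) R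
    (by fun_prop) ((by fun_prop : Continuous fun t : ℝ => max (t - 1 / 2) 0).mul cont_h).continuousOn]
  refine cfc_congr fun t _ => ?_
  show t * (max (t - 1 / 2) 0 * (1 / max t (1 / 2))) = max (t - 1 / 2) 0
  rcases le_total t (1 / 2) with h | h
  · rw [max_eq_right (a := t - 1 / 2) (by linarith)]; ring
  · rw [max_eq_left (a := t) h]
    field_simp

lemma Xp_sa (hR : IsSelfAdjoint R) : IsSelfAdjoint (Xp R) := cfc_predicate _ R

lemma Xp_nonneg (x : H) : 0 ≤ (⟪Xp R x, x⟫_ℂ).re := by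
  have h : 0 ≤ Xp R := cfc_nonneg fun t _ => le_max_right _ _
  rw [ContinuousLinearMap.nonneg_iff_isPositive] at h
  exact h.inner_nonneg_left x |>.1

lemma Xm_nonneg (x : H) : 0 ≤ (⟪Xm R x, x⟫_ℂ).re := by
  have h : 0 ≤ Xm R := cfc_nonneg fun t _ => le_max_right _ _
  rw [ContinuousLinearMap.nonneg_iff_isPositive] at h
  exact h.inner_nonneg_left x |>.1

end spec

end Pool.Agent.L0h24.AU
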