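import Pool.Agent.L0h24.AU.Corner

/-!
# Large corners on which countably many operators are bounded: the projection
-/

set_option autoImplicit false

open scoped InnerProductSpace ENNReal

namespace Pool.Agent.L0h24.AU

variable {ι : Type*} {H : Type*} [NormedAddCommGroup H] [InnerProductSpace ℂ H] [CompleteSpace H]

/-- the spectral subspace of `R` for `(1/2, ∞)` -/
noncomputable def EE (R : H →L[ℂ] H) : Submodule ℂ H :=
  (LinearMap.range (Xp R : H →ₗ[ℂ] H)).topologicalClosure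

lemma isClosed_EE (R : H →L[ℂ] H) : IsClosed (EE R : Set H) :=
  Submodule.isClosed_topologicalClosure _

instance instCompleteEE (R : H →L[ℂ] H) : CompleteSpace (EE R) := (isClosed_EE R).completeSpace_coe

lemma Xp_mem (R : H →L[ℂ] H) (x : H) : Xp R x ∈ EE R :=
  Submodule.le_topologicalClosure _ ⟨x, rfl⟩

lemma EE_induct (R : H →L[ℂ] H) {p : H → Prop} (hp : IsClosed {x | p x}) (h : ∀ x, p (Xp R x)) :
    ∀ x ∈ EE R, p x := by
  intro x hx
  have h1 : (EE R : Set H) ⊆ {x | p x} := by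
    unfold EE
    rw [Submodule.topologicalClosure_coe]
    refine closure_minimal ?_ hp
    rintro _ ⟨y, rfl⟩
    exact h y
  exact h1 hx

lemma EE_inv (R b : H →L[ℂ] H) (hb : Commute b R) : ∀ x ∈ EE R, b x ∈ EE R := by
  have hc : Commute (Xp R) b := hb.symm.cfc_real _
  refine EE_induct R ((isClosed_EE R).preimage b.continuous) fun x => ?_
  have h1 : b (Xp R x) = Xp R (b x) := congrArg (fun f : H →L[ℂ] H => f x) hc.eq.symm
  rw [h1]
  exact Xp_mem R _

lemma EE_comm (R b : H →L[ℂ] H) (hR : IsSelfAdjoint R) (hb : Commute b R) :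
    Commute b (EE R).starProjection := by
  refine comm_proj (EE R) b (EE_inv R b hb) (EE_inv R (star b) ?_)
  have h := hb.star_star
  rwa [hR.star_eq] at h

/-- `R ≥ 1/2` on the spectral subspace -/
lemma EE_ge {R : H →L[ℂ] H} (hR : IsSelfAdjoint R) :
    ∀ x ∈ EE R, 1 / 2 * ‖x‖ ^ 2 ≤ (⟪R x, x⟫_ℂ).re := by
  refine EE_induct R (isClosed_le (by fun_prop) (by fun_prop)) fun x => ?_
  have h1 : R (Xp R x) = (1 / 2 : ℂ) • Xp R x + Xp R (Xp R x) := by
    have h2 := congrArg (fun f : H →L[ℂ] H => f (Xp R x)) (Xp_sub hR)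
    have h3 : Xm R (Xp R x) = 0 := congrArg (fun f : H →L[ℂ] H => f x) (Xm_mul_Xp hR)
    simp only [sub_apply] at h2
    rw [h3, sub_zero] at h2
    rw [h2]
    have h4 : (algebraMap ℝ (H →L[ℂ] H) (1 / 2)) (Xp R x) = (1 / 2 : ℂ) • Xp R x := by
      rw [Algebra.algebraMap_eq_smul_one]
      show (1 / 2 : ℝ) • (Xp R x) = _
      rw [← Complex.coe_smul]
      norm_num
    rw [h4]
    abel
  rw [h1, inner_add_left, Complex.add_re, inner_smul_left]
  have h5 : (starRingEnd ℂ (1 / 2 : ℂ) * ⟪Xp R x, Xp R x⟫_ℂ).re = 1 / 2 * ‖Xp R x‖ ^ 2 := by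
    rw [inner_self_eq_norm_sq_to_K]
    have : (starRingEnd ℂ (1 / 2 : ℂ)) = ((1 / 2 : ℝ) : ℂ) := by
      rw [show (1 / 2 : ℂ) = ((1 / 2 : ℝ) : ℂ) by push_cast; ring, Complex.conj_ofReal]
    rw [this, Complex.re_ofReal_mul]
    norm_cast
  rw [h5]
  have h6 := Xp_nonneg (R := R) (Xp R x)
  linarith

/-- `R ≤ 1/2` on the orthogonal complement of the spectral subspace -/
lemma EE_le {R : H →L[ℂ] H} (hR : IsSelfAdjoint R) (x : H) (hx : x ∈ (EE R)ᗮ) :
    (⟪R x, x⟫_ℂ).re ≤ 1 / 2 * ‖x‖ ^ 2 := by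
  have h0 : Xp R x = 0 := by
    rw [← inner_self_eq_zero (𝕜 := ℂ)]
    have h1 : ⟪Xp R x, Xp R x⟫_ℂ = ⟪Xp R (Xp R x), x⟫_ℂ := by
      rw [← ContinuousLinearMap.adjoint_inner_left, ← ContinuousLinearMap.star_eq_adjoint,
        (Xp_sa hR).star_eq]
    rw [h1]
    exact hx _ (Xp_mem R _)
  have h1 : R x = (1 / 2 : ℂ) • x - Xm R x := by
    have h2 := congrArg (fun f : H →L[ℂ] H => f x) (Xp_sub hR)
    simp only [sub_apply] at h2
    rw [h0] at h2
    have h4 : (algebraMap ℝ (H →L[ℂ] H) (1 / 2)) x = (1 / 2 : ℂ) • x := by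
      rw [Algebra.algebraMap_eq_smul_one]
      show (1 / 2 : ℝ) • x = _
      rw [← Complex.coe_smul]
      norm_num
    rw [h4] at h2
    rw [eq_sub_iff_add_eq]
    have h5 : R x - (1 / 2 : ℂ) • x = -Xm R x := by rw [← h2, zero_sub]
    rw [sub_eq_iff_eq_add] at h5
    rw [h5]
    abel
  rw [h1, inner_sub_left, Complex.sub_re, inner_smul_left]
  have h5 : (starRingEnd ℂ (1 / 2 : ℂ) * ⟪x, x⟫_ℂ).re = 1 / 2 * ‖x‖ ^ 2 := by
    rw [inner_self_eq_norm_sq_to_K]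
    have : (starRingEnd ℂ (1 / 2 : ℂ)) = ((1 / 2 : ℝ) : ℂ) := by
      rw [show (1 / 2 : ℂ) = ((1 / 2 : ℝ) : ℂ) by push_cast; ring, Complex.conj_ofReal]
    rw [this, Complex.re_ofReal_mul]
    norm_cast
  rw [h5]
  have h6 := Xm_nonneg (R := R) x
  linarith

/-- **Large corners.** -/
theorem corner (a : ι → H →L[ℂ] H) (Ω : H) (s : ℝ)
    (hs : ∀ F : Finset ι, ∑ i ∈ F, ‖a i Ω‖ ^ 2 ≤ s) :
    ∃ e : H →L[ℂ] H, IsStarProjection e ∧
      (∀ b : H →L[ℂ] H, (∀ i, Commute b (a i)) → (∀ i, Commute b (star (a i))) → Commute b e) ∧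
      ‖Ω - e Ω‖ ^ 2 ≤ 2 * s ∧ ∀ i x, ‖a i (e x)‖ ^ 2 ≤ 2 * ‖e x‖ ^ 2 := by
  set R := RR a with hRdef
  have hR : IsSelfAdjoint R := RR_isSelfAdjoint a
  refine ⟨(EE R).starProjection, isStarProjection_starProjection, fun b hb hb' => ?_, ?_, ?_⟩
  · exact EE_comm R b hR (RR_comm a b hb hb')
  · set x := (EE R).starProjection Ω with hx
    set y := Ω - (EE R).starProjection Ω with hy
    have hxE : x ∈ EE R := Submodule.starProjection_apply_mem _ _
    have hyE : y ∈ (EE R)ᗮ := Submodule.sub_starProjection_mem_orthogonal _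
    have hO : Ω = x + y := by rw [hy, hx]; abel
    have h1 : ‖Ω‖ ^ 2 = ‖x‖ ^ 2 + ‖y‖ ^ 2 := by
      have h := norm_add_sq_eq_norm_sq_add_norm_sq_of_inner_eq_zero (𝕜 := ℂ) x y (hyE x hxE)
      rw [← hO] at h
      nlinarith [h]
    have h2 : (⟪R Ω, Ω⟫_ℂ).re = (⟪R x, x⟫_ℂ).re + (⟪R y, y⟫_ℂ).re := by
      have h3 : ⟪R x, y⟫_ℂ = 0 := hyE _ (EE_inv R R (Commute.refl R) x hxE)
      have h4 : ⟪R y, x⟫_ℂ = 0 := by
        rw [RR_symm, ← inner_conj_symm, h3, map_zero]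
      rw [hO, map_add, inner_add_left, inner_add_right, inner_add_right, h3, h4]
      simp
    have h3 := le_RR a Ω s hs
    have h4 := re_RR_le a x
    have h5 := EE_le hR y hyE
    rw [← hRdef] at h3 h4
    nlinarith
  · intro i x
    have key : ∀ z ∈ EE R, ‖a i z‖ ^ 2 ≤ 2 * ‖z‖ ^ 2 := by
      refine EE_induct R (isClosed_le (by fun_prop) (by fun_prop)) fun z => ?_
      set ζ := (Xp R * Xh R) z with hζ
      have h1 : Xp R z = R ζ := by
        have h := congrArg (fun f : H →L[ℂ] H => f z) (R_Xp_h hR)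
        exact h.symm
      have h2 : ζ ∈ EE R := Xp_mem R _
      have h3 := a_RR a i ζ
      rw [← hRdef] at h3
      have h4 := EE_ge hR ζ h2
      have h5 : (⟪R ζ, ζ⟫_ℂ).re ≤ ‖R ζ‖ * ‖ζ‖ := (Complex.re_le_norm _).trans (norm_inner_le_norm _ _)
      rw [h1]
      set t := (⟪R ζ, ζ⟫_ℂ).re with ht
      have h6 : 0 ≤ t := re_RR_nonneg a ζ
      have h7 : t ≤ 2 * ‖R ζ‖ ^ 2 := by
        rcases h6.eq_or_lt with h | h
        · rw [← h]; positivity
        · have h8 : t * t ≤ (‖R ζ‖ ^ 2) * (2 * t) := by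
            calc t * t ≤ (‖R ζ‖ * ‖ζ‖) * (‖R ζ‖ * ‖ζ‖) := by gcongr
              _ = ‖R ζ‖ ^ 2 * ‖ζ‖ ^ 2 := by ring
              _ ≤ ‖R ζ‖ ^ 2 * (2 * t) := by gcongr; linarith
          have h9 : t * t ≤ (2 * ‖R ζ‖ ^ 2) * t := by linarith
          exact le_of_mul_le_mul_right h9 h
      exact h3.trans h7
    exact key _ (Submodule.starProjection_apply_mem _ _)

end Pool.Agent.L0h24.AU
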